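import Pool.Agent.Lib.MP_1a91b9_ntK2.D.UpG

/-!
# MP_1a91b9_nt (cubic twists, classes modulo powers of three), part D: definitions

Every prime has a class `cl q` in a group `G`. `Dich3`: a character of `G` is on the primes a cubic
character of the two class coordinates, or its products with all the cubic characters of the system
have mean value zero. `DensG3`: the densities in the classes of `G`.
-/

set_option autoImplicit false

namespace Pool.Agent.Lib.MP_1a91b9_ntS3.DG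

open Finset Pool.Agent.Lib.MP_1a91b9_ntH Pool.Agent.Lib.MP_1a91b9_ntK
  Pool.Agent.Lib.MP_1a91b9_ntK.Da

noncomputable section

variable {ι : Type} [DecidableEq ι] [PS ι] {G : Type} [AddCommGroup G]

open Classical in
/-- The mean values of the weight `h` times the cubic characters of the system are zero. -/
def Mz3 (D : Dat3b ι) (h : ι → ℂ) : Prop :=
  ∀ (B : Finset ι) (t : ι → ZMod 3) (c c' : ZMod 3) (ε : ℝ), 0 < ε → ∃ X₀ : ℕ, ∀ X : ℕ, X₀ ≤ X →
    ‖∑ S ∈ (Sx ι X).filter (fun S => Disjoint S B),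
      ∏ q ∈ S, (h q * e3 (D.exb B t c c' q))‖ ≤ ε * X

/-- The dichotomy for the characters of the classes. -/
def Dich3 (D : Dat3b ι) (cl : ι → G) : Prop :=
  ∀ ψ : AddChar G ℂ, (∃ c c' : ZMod 3, ∀ q, ψ (cl q) = e3 (c * D.a q + c' * D.b q)) ∨
    Mz3 D fun q => ψ (cl q)

open Classical in
/-- The squarefree integers prime to `T` of the class `g`. -/
def SGT (cl : ι → G) (T : Finset ι) (g : G) (X : ℕ) : Finset (Finset ι) :=
  (SxT T X).filter fun S => ∑ q ∈ S, cl q = g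

theorem mem_SGT {cl : ι → G} {T : Finset ι} {g : G} {X : ℕ} {S : Finset ι} :
    S ∈ SGT cl T g X ↔ (S ∈ Sx ι X ∧ Disjoint S T) ∧ ∑ q ∈ S, cl q = g := by
  classical
  rw [SGT, mem_filter, mem_SxT]

open Classical in
/-- The proportion of the `S` with the property `P` in the class `g` tends to `cinf3`, as two
bounds. -/
def Bd3 (cl : ι → G) (T : Finset ι) (g : G) (P : Finset ι → Prop) : Prop :=
  ∀ κ : ℝ,
    (κ < cinf3 → ∀ ε : ℝ, 0 < ε → ∃ X₀ : ℕ, ∀ X : ℕ, X₀ ≤ X →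
      κ * ((SGT cl T g X).card : ℝ) - ε * X ≤ (((SGT cl T g X).filter P).card : ℝ)) ∧
    (cinf3 < κ → ∀ ε : ℝ, 0 < ε → ∃ X₀ : ℕ, ∀ X : ℕ, X₀ ≤ X →
      (((SGT cl T g X).filter P).card : ℝ) ≤ κ * ((SGT cl T g X).card : ℝ) + ε * X)

/-- **The densities in the classes.** -/
structure DensG3 (D : Dat3b ι) (cl : ι → G) : Prop where
  /-- the matrices `N_{τ,σ}` -/
  ne : ∀ (T : Finset ι) (g : G) (τ σ : ZMod 3), τ ≠ 0 ∨ σ ≠ 0 →
    Bd3 cl T g fun S => ((D.tw τ σ).N (eT T) 1 (S ∪ T)).det ≠ 0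
  /-- the Laplacian -/
  ze : ∀ (T : Finset ι) (g : G), Bd3 cl T g fun S => D.kc (eT T) 0 (S ∪ T) = 3
  /-- the bordered matrices -/
  bo : ∀ (T : Finset ι) (g : G) (τ σ ρ : ZMod 3), σ ≠ 0 →
    Bd3 cl T g fun S => (D.NB (eT T) τ σ ρ (S ∪ T)).det ≠ 0
  /-- the bordered Laplacian -/
  bz : ∀ (T : Finset ι) (g : G) (ρ : ZMod 3),
    (∀ X, ∀ S ∈ SGT cl T g X, D.cA (eT T) (S ∪ T) = 0) →
    Bd3 cl T g fun S => D.kB (eT T) 0 0 ρ (S ∪ T) = 3

end

end Pool.Agent.Lib.MP_1a91b9_ntS3.DG
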