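import Pool.Agent.Lib.MP_1a91b9_ntS3.DG.ExW

/-!
# MP_1a91b9_nt (cubic twists, classes modulo powers of three), part D: moments in the classes of `G`
-/

set_option autoImplicit false
set_option linter.unusedSectionVars false

namespace Pool.Agent.Lib.MP_1a91b9_ntS3.DG

open Finset Pool.Agent.Lib.MP_1a91b9_ntH Pool.Agent.Lib.MP_1a91b9_ntK
  Pool.Agent.Lib.MP_1a91b9_ntK.Da

noncomputable section

variable {ι : Type} [DecidableEq ι] [PS ι] {G : Type} [AddCommGroup G]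

theorem hS_ch (ψ : AddChar G ℂ) (cl : ι → G) (S : Finset ι) :
    hS (fun q => ψ (cl q)) S = ψ (∑ q ∈ S, cl q) := by
  classical
  unfold hS
  induction S using Finset.induction_on with
  | empty => rw [sum_empty, prod_empty, AddChar.map_zero_eq_one]
  | insert a s ha ih => rw [sum_insert ha, prod_insert ha, AddChar.map_add_eq_mul, ih]

theorem sum_SGT [Fintype G] (cl : ι → G) (T : Finset ι) (g : G) (X : ℕ) (F : Finset ι → ℂ) :
    ∑ S ∈ SGT cl T g X, F S = (∑ ψ : AddChar G ℂ, ψ (-g) *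
      ∑ S ∈ SxT T X, hS (fun q => ψ (cl q)) S * F S) / Fintype.card G := by
  classical
  have hG : (Fintype.card G : ℂ) ≠ 0 := Nat.cast_ne_zero.2 Fintype.card_ne_zero
  have h1 : ∀ (ψ : AddChar G ℂ) (S : Finset ι), ψ (-g) * (hS (fun q => ψ (cl q)) S * F S) =
      ψ (∑ q ∈ S, cl q - g) * F S := by
    intro ψ S
    rw [sub_eq_add_neg, AddChar.map_add_eq_mul, hS_ch]
    ring
  have h2 : ∑ ψ : AddChar G ℂ, ψ (-g) * ∑ S ∈ SxT T X, hS (fun q => ψ (cl q)) S * F S =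
      ∑ S ∈ SxT T X, if ∑ q ∈ S, cl q = g then (Fintype.card G : ℂ) * F S else 0 := by
    simp only [mul_sum, h1]
    rw [sum_comm]
    refine sum_congr rfl fun S _ => ?_
    rw [← sum_mul, AddChar.sum_apply_eq_ite]
    by_cases h : ∑ q ∈ S, cl q = g
    · rw [if_pos (sub_eq_zero.2 h), if_pos h]
    · rw [if_neg fun h' => h (sub_eq_zero.1 h'), if_neg h, zero_mul]
  rw [h2, ← sum_filter, SGT, ← mul_sum, mul_div_cancel_left₀ _ hG]

/-- All the sums of `F` with a character are small. -/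
def MW (cl : ι → G) (T : Finset ι) (F : Finset ι → ℂ) : Prop :=
  ∀ (ψ : AddChar G ℂ) (ε : ℝ), 0 < ε → ∃ X₀ : ℕ, ∀ X : ℕ, X₀ ≤ X →
    ‖∑ S ∈ SxT T X, hS (fun q => ψ (cl q)) S * F S‖ ≤ ε * X

theorem MW.cls [Fintype G] {cl : ι → G} {T : Finset ι} {F : Finset ι → ℂ} (h : MW cl T F)
    (g : G) (ε : ℝ) (hε : 0 < ε) : ∃ X₀ : ℕ, ∀ X : ℕ, X₀ ≤ X →
    ‖∑ S ∈ SGT cl T g X, F S‖ ≤ ε * X := by
  have hG : (0 : ℝ) < Fintype.card G := Nat.cast_pos.2 Fintype.card_pos
  choose X1 h1 using fun ψ : AddChar G ℂ => h ψ ε hε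
  refine ⟨∑ ψ, X1 ψ, fun X hX => ?_⟩
  have hX1 : ∀ ψ, X1 ψ ≤ X := fun ψ =>
    (single_le_sum (fun _ _ => Nat.zero_le _) (mem_univ ψ)).trans hX
  rw [sum_SGT, norm_div, Complex.norm_natCast, div_le_iff₀ hG]
  refine (norm_sum_le _ _).trans ?_
  have hcard : (Fintype.card (AddChar G ℂ) : ℝ) = Fintype.card G := by
    rw [AddChar.card_eq]
  calc _ ≤ ∑ _ψ : AddChar G ℂ, ε * X := by
        refine sum_le_sum fun ψ _ => ?_
        rw [norm_mul, AddChar.norm_apply, one_mul]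
        exact h1 ψ X (hX1 ψ)
    _ = ε * X * Fintype.card G := by
        rw [sum_const, card_univ, nsmul_eq_mul, hcard]
        ring

/-! ### The class coordinates -/

/-- The exponent of the class of `S ∪ T`. -/
def cE (D : Dat3b ι) (T : Finset ι) (c c' : ZMod 3) (S : Finset ι) : ZMod 3 :=
  c * D.cA (eT T) (S ∪ T) + c' * D.cB (eT T) (S ∪ T)

theorem e3_cE (D : Dat3b ι) {S T : Finset ι} (hST : Disjoint S T) (c c' : ZMod 3) :
    e3 (cE D T c c' S) = e3 (c * D.cA (eT T) T + c' * D.cB (eT T) T) *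
      hS (fun q => e3 (c * D.a q + c' * D.b q)) S := by
  have hS1 : ∀ j ∈ S, eT T j = 1 := fun j hj => if_neg (disjoint_left.1 hST hj)
  have hA : D.cA (eT T) (S ∪ T) = ∑ q ∈ S, D.a q + D.cA (eT T) T := by
    rw [Dat3b.cA, sum_union hST, Dat3b.cA]
    congr 1
    exact sum_congr rfl fun j hj => by rw [hS1 j hj, one_mul]
  have hB : D.cB (eT T) (S ∪ T) = ∑ q ∈ S, D.b q + D.cB (eT T) T := by
    rw [Dat3b.cB, sum_union hST, Dat3b.cB]
    congr 1
    exact sum_congr rfl fun j hj => by rw [hS1 j hj, one_mul]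
  have h4 : hS (fun q => e3 (c * D.a q + c' * D.b q)) S =
      e3 (c * ∑ q ∈ S, D.a q + c' * ∑ q ∈ S, D.b q) := by
    unfold hS
    rw [mul_sum, mul_sum, ← sum_add_distrib, e3_sum]
  rw [cE, hA, hB, h4, ← e3_add]
  congr 1
  ring

theorem Mz3.mul {D : Dat3b ι} {h : ι → ℂ} (hz : Mz3 D h) (c c' : ZMod 3) :
    Mz3 D fun q => h q * e3 (c * D.a q + c' * D.b q) := by
  intro B t d d' ε hε
  obtain ⟨X₀, hX⟩ := hz B t (c + d) (c' + d') ε hε
  refine ⟨X₀, fun X hXX => ?_⟩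
  refine le_trans (le_of_eq ?_) (hX X hXX)
  congr 1
  refine sum_congr rfl fun S _ => prod_congr rfl fun q _ => ?_
  rw [mul_assoc, ← e3_add]
  congr 2
  unfold Dat3b.exb
  ring

theorem Mz3.one {D : Dat3b ι} {h : ι → ℂ} (hz : Mz3 D h) (T : Finset ι) (ε : ℝ) (hε : 0 < ε) :
    ∃ X₀ : ℕ, ∀ X : ℕ, X₀ ≤ X → ‖∑ S ∈ SxT T X, hS h S‖ ≤ ε * X := by
  classical
  obtain ⟨X₀, hX⟩ := hz T (fun _ => 0) 0 0 ε hε
  refine ⟨X₀, fun X hXX => ?_⟩
  refine le_trans (le_of_eq ?_) (hX X hXX)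
  rw [SxT]
  congr 1
  refine sum_congr rfl fun S _ => prod_congr rfl fun q _ => ?_
  unfold Dat3b.exb
  simp only [zero_mul, sum_const_zero, add_zero, e3_zero, mul_one]

/-- The sums of `F` with a weight, which is not a cubic character, are small. -/
def VanT (D : Dat3b ι) (T : Finset ι) (F : Finset ι → ℂ) : Prop :=
  ∀ h : ι → ℂ, (∀ q, ‖h q‖ = 1) → Mz3 D h → ∀ (c c' : ZMod 3) (ε : ℝ), 0 < ε →
    ∃ X₀ : ℕ, ∀ X : ℕ, X₀ ≤ X → ‖∑ S ∈ SxT T X, hS h S * (F S * e3 (cE D T c c' S))‖ ≤ ε * X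

theorem vanT_one (D : Dat3b ι) (T : Finset ι) : VanT D T fun _ => 1 := by
  intro h _ hz c c' ε hε
  obtain ⟨X₀, hX⟩ := (hz.mul c c').one T ε hε
  refine ⟨X₀, fun X hXX => ?_⟩
  have e : ∑ S ∈ SxT T X, hS h S * (1 * e3 (cE D T c c' S)) =
      e3 (c * D.cA (eT T) T + c' * D.cB (eT T) T) *
        ∑ S ∈ SxT T X, hS (fun q => h q * e3 (c * D.a q + c' * D.b q)) S := by
    rw [mul_sum]
    refine sum_congr rfl fun S hSS => ?_
    rw [e3_cE D (mem_SxT.1 hSS).2]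
    unfold hS
    rw [prod_mul_distrib]
    ring
  rw [e, norm_mul, norm_e3, one_mul]
  exact hX X hXX

theorem vanT_N {D : Dat3b ι} (hD : D.OKb) {C₂ : ℝ}
    (hC₂ : ∀ Y : ℕ, ((Sx ι Y).card : ℝ) ≤ C₂ * Y) (τ σ : ZMod 3) (T : Finset ι) (k : ℕ) :
    VanT D T fun S => ((((D.tw τ σ).kc (eT T) 1 (S ∪ T) : ℝ) ^ k : ℝ) : ℂ) := by
  rcases Nat.eq_zero_or_pos k with rfl | hk
  · have h1 := vanT_one D T
    intro h hn hz c c' ε hε
    obtain ⟨X₀, hX⟩ := h1 h hn hz c c' ε hε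
    refine ⟨X₀, fun X hXX => ?_⟩
    have h2 := hX X hXX
    simpa using h2
  · intro h hn hz c c' ε hε
    obtain ⟨X₀, hX⟩ := Ex_w hD hC₂ hk (fun l => τ * Q3 l + c) (fun l => σ * Q3 l + c') T hn hz
      ε hε
    refine ⟨X₀, fun X hXX => ?_⟩
    refine le_trans (le_of_eq ?_) (hX X hXX)
    congr 1
    refine sum_congr rfl fun S _ => ?_
    rw [← kc_Ex]
    push_cast
    rfl

theorem vanT_B {D : Dat3b ι} (hD : D.OKb) {C₂ : ℝ}
    (hC₂ : ∀ Y : ℕ, ((Sx ι Y).card : ℝ) ≤ C₂ * Y) (τ σ ρ : ZMod 3) (T : Finset ι) (k : ℕ) :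
    VanT D T fun S => (((D.kB (eT T) τ σ ρ (S ∪ T) : ℝ) ^ k : ℝ) : ℂ) := by
  rcases Nat.eq_zero_or_pos k with rfl | hk
  · have h1 := vanT_one D T
    intro h hn hz c c' ε hε
    obtain ⟨X₀, hX⟩ := h1 h hn hz c c' ε hε
    refine ⟨X₀, fun X hXX => ?_⟩
    have h2 := hX X hXX
    simpa using h2
  · intro h hn hz c c' ε hε
    have hN : (0 : ℝ) < Fintype.card (Lab3 k) := by
      exact_mod_cast Fintype.card_pos
    choose X0 h0 using fun m : Lab3 k => Ex_w hD hC₂ hk (fun l => τ * Q3 l + B3 l m + c)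
      (fun l => σ * Q3 l + (0 * Q3 m + c')) T hn hz (ε / Fintype.card (Lab3 k)) (by positivity)
    refine ⟨∑ m, X0 m, fun X hX => ?_⟩
    have hXt : ∀ m, X0 m ≤ X := fun m =>
      (single_le_sum (fun _ _ => Nat.zero_le _) (mem_univ m)).trans hX
    have e : ∑ S ∈ SxT T X, hS h S * ((((D.kB (eT T) τ σ ρ (S ∪ T) : ℝ) ^ k : ℝ) : ℂ) *
        e3 (cE D T c c' S)) = (3 ^ k : ℂ)⁻¹ * ∑ m : Lab3 k, e3 (ρ * Q3 m) *
          ∑ S ∈ SxT T X, hS h S * Ex D (fun l => τ * Q3 l + B3 l m + c)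
            (fun l => σ * Q3 l + (0 * Q3 m + c')) T S := by
      have h1 : ∀ S ∈ SxT T X, hS h S * ((((D.kB (eT T) τ σ ρ (S ∪ T) : ℝ) ^ k : ℝ) : ℂ) *
          e3 (cE D T c c' S)) = (3 ^ k : ℂ)⁻¹ * ∑ m : Lab3 k, e3 (ρ * Q3 m) *
            (hS h S * Ex D (fun l => τ * Q3 l + B3 l m + c)
              (fun l => σ * Q3 l + (0 * Q3 m + c')) T S) := by
        intro S _
        have h2 := kB_Ex (k := k) D τ σ ρ 0 c c' S T
        rw [zero_mul, add_zero] at h2
        have h3 : (((D.kB (eT T) τ σ ρ (S ∪ T) : ℝ) ^ k : ℝ) : ℂ) * e3 (cE D T c c' S) =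
            (D.kB (eT T) τ σ ρ (S ∪ T) : ℂ) ^ k *
              e3 (c * D.cA (eT T) (S ∪ T) + c' * D.cB (eT T) (S ∪ T)) := by
          push_cast
          rfl
        rw [h3, h2, mul_sum, mul_sum, mul_sum]
        refine sum_congr rfl fun m _ => ?_
        ring
      rw [sum_congr rfl h1, ← mul_sum, sum_comm]
      congr 1
      refine sum_congr rfl fun m _ => ?_
      rw [mul_sum]
    have h3k : ‖((3 : ℂ) ^ k)⁻¹‖ ≤ 1 := by
      rw [norm_inv, norm_pow, Complex.norm_ofNat]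
      exact inv_le_one_of_one_le₀ (one_le_pow₀ (by norm_num))
    rw [e, norm_mul]
    calc _ ≤ 1 * ‖∑ m : Lab3 k, e3 (ρ * Q3 m) *
          ∑ S ∈ SxT T X, hS h S * Ex D (fun l => τ * Q3 l + B3 l m + c)
            (fun l => σ * Q3 l + (0 * Q3 m + c')) T S‖ :=
          mul_le_mul_of_nonneg_right h3k (norm_nonneg _)
      _ ≤ ∑ m : Lab3 k, ε / Fintype.card (Lab3 k) * X := by
        rw [one_mul]
        refine (norm_sum_le _ _).trans (sum_le_sum fun m _ => ?_)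
        rw [norm_mul, norm_e3, one_mul]
        exact h0 m X (hXt m)
      _ = ε * X := by
        rw [sum_const, card_univ, nsmul_eq_mul]
        field_simp

/-! ### The moments -/

/-- The sums over the class, from two bounds. -/
theorem small_add {f g : ℕ → ℂ} (hf : ∀ ε : ℝ, 0 < ε → ∃ X₀ : ℕ, ∀ X : ℕ, X₀ ≤ X → ‖f X‖ ≤ ε * X)
    (hg : ∀ ε : ℝ, 0 < ε → ∃ X₀ : ℕ, ∀ X : ℕ, X₀ ≤ X → ‖g X‖ ≤ ε * X) (v : ℂ) (ε : ℝ)
    (hε : 0 < ε) : ∃ X₀ : ℕ, ∀ X : ℕ, X₀ ≤ X → ‖f X - v * g X‖ ≤ ε * X := by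
  have hpos : 0 < ε / (1 + ‖v‖) := by positivity
  obtain ⟨X1, h1⟩ := hf (ε / (1 + ‖v‖)) hpos
  obtain ⟨X2, h2⟩ := hg (ε / (1 + ‖v‖)) hpos
  refine ⟨max X1 X2, fun X hX => ?_⟩
  have h3 := h1 X (le_trans (le_max_left _ _) hX)
  have h4 := h2 X (le_trans (le_max_right _ _) hX)
  calc ‖f X - v * g X‖ ≤ ‖f X‖ + ‖v * g X‖ := norm_sub_le _ _
    _ ≤ ε / (1 + ‖v‖) * X + ‖v‖ * (ε / (1 + ‖v‖) * X) := by
        rw [norm_mul]
        exact add_le_add h3 (mul_le_mul_of_nonneg_left h4 (norm_nonneg _))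
    _ = ε * X := by
        have : (1 : ℝ) + ‖v‖ ≠ 0 := by positivity
        field_simp

/-- The moments in all the classes. -/
theorem mw_all [Finite G] {D : Dat3b ι} (hD : D.OKb) {cl : ι → G} (hdi : Dich3 D cl) {T : Finset ι}
    {F : Finset ι → ℂ} {v : ℂ} (hM : MoG D T F fun c c' => if c = 0 ∧ c' = 0 then v else 0)
    (hV : VanT D T F) : MW cl T fun S => F S - v := by
  intro ψ ε hε
  rcases hdi ψ with ⟨c, c', h1⟩ | h1
  · have key := small_add (hM c c') (MoG_one hD T c c') v ε hε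
    obtain ⟨X₀, hX⟩ := key
    refine ⟨X₀, fun X hXX => ?_⟩
    refine le_trans (le_of_eq ?_) (hX X hXX)
    have h2 : ∀ S ∈ SxT T X, hS (fun q => ψ (cl q)) S * (F S - v) =
        e3 (-(c * D.cA (eT T) T + c' * D.cB (eT T) T)) *
          (F S * e3 (cE D T c c' S) - v * (1 * e3 (cE D T c c' S))) := by
      intro S hSS
      have h3 : hS (fun q => ψ (cl q)) S = hS (fun q => e3 (c * D.a q + c' * D.b q)) S :=
        prod_congr rfl fun q _ => h1 q
      rw [h3, e3_cE D (mem_SxT.1 hSS).2]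
      have h4 : e3 (-(c * D.cA (eT T) T + c' * D.cB (eT T) T)) *
          e3 (c * D.cA (eT T) T + c' * D.cB (eT T) T) = 1 := by
        rw [← e3_add, neg_add_cancel, e3_zero]
      linear_combination (-(hS (fun q => e3 (c * D.a q + c' * D.b q)) S * (F S - v))) * h4
    rw [sum_congr rfl h2, ← mul_sum, norm_mul, norm_e3, one_mul, sum_sub_distrib, ← mul_sum]
    congr 1
    have h5 : ∀ S : Finset ι, cE D T c c' S =
        c * D.cA (eT T) (S ∪ T) + c' * D.cB (eT T) (S ∪ T) := fun _ => rfl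
    simp only [h5]
    by_cases hc : c = 0 ∧ c' = 0
    · simp only [if_pos hc]
      ring
    · simp only [if_neg hc]
      ring
  · have hn : ∀ q, ‖ψ (cl q)‖ = 1 := fun q => AddChar.norm_apply ψ _
    obtain ⟨X₀, hX⟩ := small_add (hV _ hn h1 0 0) (vanT_one D T _ hn h1 0 0) v ε hε
    refine ⟨X₀, fun X hXX => ?_⟩
    refine le_trans (le_of_eq ?_) (hX X hXX)
    rw [mul_sum, ← sum_sub_distrib]
    congr 1
    refine sum_congr rfl fun S _ => ?_
    have h5 : e3 (cE D T 0 0 S) = 1 := by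
      unfold cE
      rw [zero_mul, zero_mul, add_zero, e3_zero]
    rw [h5]
    ring

/-- The moments in the classes with `∑ e a = 0`. -/
theorem mw_zero [Finite G] {D : Dat3b ι} (hD : D.OKb) {cl : ι → G} (hdi : Dich3 D cl) {T : Finset ι}
    {F : Finset ι → ℂ} {v : ℂ} {μ : ZMod 3 → ZMod 3 → ℂ} (hM : MoG D T F μ)
    (hμ : ∀ c c', ∑ d : ZMod 3, μ (c + d) c' = if c' = 0 then v else 0)
    (hV : VanT D T F) :
    MW cl T fun S => (∑ d : ZMod 3, e3 (cE D T d 0 S)) * (F S - v) := by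
  intro ψ ε hε
  rcases hdi ψ with ⟨c, c', h1⟩ | h1
  · choose X1 hX1 using fun d : ZMod 3 => small_add (hM (c + d) c') (MoG_one hD T (c + d) c') v
      (ε / 3) (by positivity)
    refine ⟨∑ d, X1 d, fun X hX => ?_⟩
    have hXt : ∀ d, X1 d ≤ X := fun d =>
      (single_le_sum (fun _ _ => Nat.zero_le _) (mem_univ d)).trans hX
    have h5 : ∀ (d : ZMod 3) (S : Finset ι), cE D T (c + d) c' S =
        (c + d) * D.cA (eT T) (S ∪ T) + c' * D.cB (eT T) (S ∪ T) := fun _ _ => rfl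
    have h2 : ∀ S ∈ SxT T X, hS (fun q => ψ (cl q)) S *
        ((∑ d : ZMod 3, e3 (cE D T d 0 S)) * (F S - v)) =
        e3 (-(c * D.cA (eT T) T + c' * D.cB (eT T) T)) *
          ∑ d : ZMod 3, (F S * e3 (cE D T (c + d) c' S) - v * (1 * e3 (cE D T (c + d) c' S))) := by
      intro S hSS
      have h3 : hS (fun q => ψ (cl q)) S = hS (fun q => e3 (c * D.a q + c' * D.b q)) S :=
        prod_congr rfl fun q _ => h1 q
      have h4 : e3 (-(c * D.cA (eT T) T + c' * D.cB (eT T) T)) *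
          e3 (c * D.cA (eT T) T + c' * D.cB (eT T) T) = 1 := by
        rw [← e3_add, neg_add_cancel, e3_zero]
      have h6 : ∀ d : ZMod 3, e3 (cE D T (c + d) c' S) =
          e3 (cE D T c c' S) * e3 (cE D T d 0 S) := by
        intro d
        rw [← e3_add]
        congr 1
        unfold cE
        ring
      rw [h3]
      simp only [h6]
      rw [e3_cE D (mem_SxT.1 hSS).2 c c', sum_mul, mul_sum, mul_sum]
      refine sum_congr rfl fun d _ => ?_
      linear_combination (-(hS (fun q => e3 (c * D.a q + c' * D.b q)) S * (F S - v) *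
        e3 (cE D T d 0 S))) * h4
    have hsum : ∑ d : ZMod 3, (μ (c + d) c' - v * (if c + d = 0 ∧ c' = 0 then (1 : ℂ) else 0)) =
        0 := by
      rw [sum_sub_distrib, hμ, ← mul_sum]
      by_cases hc' : c' = 0
      · have h7 : ∑ d : ZMod 3, (if c + d = 0 ∧ c' = 0 then (1 : ℂ) else 0) = 1 := by
          rw [Fintype.sum_eq_single (-c)]
          · rw [add_neg_cancel, if_pos ⟨rfl, hc'⟩]
          · intro d hd
            rw [if_neg]
            rintro ⟨h8, _⟩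
            exact hd (eq_neg_of_add_eq_zero_right h8)
        rw [h7, if_pos hc', mul_one, sub_self]
      · have h7 : ∑ d : ZMod 3, (if c + d = 0 ∧ c' = 0 then (1 : ℂ) else 0) = 0 :=
          sum_eq_zero fun d _ => if_neg fun h => hc' h.2
        rw [h7, if_neg hc', mul_zero, sub_self]
    have e : ∑ S ∈ SxT T X, hS (fun q => ψ (cl q)) S *
        ((∑ d : ZMod 3, e3 (cE D T d 0 S)) * (F S - v)) =
        e3 (-(c * D.cA (eT T) T + c' * D.cB (eT T) T)) * ∑ d : ZMod 3,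
          ((∑ S ∈ SxT T X, F S * e3 ((c + d) * D.cA (eT T) (S ∪ T) +
              c' * D.cB (eT T) (S ∪ T)) - μ (c + d) c' * ((SxT T X).card : ℂ)) -
            v * (∑ S ∈ SxT T X, 1 * e3 ((c + d) * D.cA (eT T) (S ∪ T) +
              c' * D.cB (eT T) (S ∪ T)) -
              (if c + d = 0 ∧ c' = 0 then (1 : ℂ) else 0) * ((SxT T X).card : ℂ))) := by
      rw [sum_congr rfl h2, ← mul_sum, sum_comm]
      congr 1
      have h8 : ∀ d : ZMod 3, ∑ S ∈ SxT T X, (F S * e3 (cE D T (c + d) c' S) -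
          v * (1 * e3 (cE D T (c + d) c' S))) =
          ((∑ S ∈ SxT T X, F S * e3 ((c + d) * D.cA (eT T) (S ∪ T) +
              c' * D.cB (eT T) (S ∪ T)) - μ (c + d) c' * ((SxT T X).card : ℂ)) -
            v * (∑ S ∈ SxT T X, 1 * e3 ((c + d) * D.cA (eT T) (S ∪ T) +
              c' * D.cB (eT T) (S ∪ T)) -
              (if c + d = 0 ∧ c' = 0 then (1 : ℂ) else 0) * ((SxT T X).card : ℂ))) +
            (μ (c + d) c' - v * (if c + d = 0 ∧ c' = 0 then (1 : ℂ) else 0)) *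
              ((SxT T X).card : ℂ) := by
        intro d
        rw [sum_sub_distrib, ← mul_sum]
        simp only [h5]
        ring
      rw [sum_congr rfl fun d _ => h8 d, sum_add_distrib, ← sum_mul, hsum, zero_mul, add_zero]
    rw [e, norm_mul, norm_e3, one_mul]
    calc _ ≤ ∑ _d : ZMod 3, ε / 3 * X := by
          refine (norm_sum_le _ _).trans (sum_le_sum fun d _ => ?_)
          exact hX1 d X (hXt d)
      _ = ε * X := by
          rw [sum_const, card_univ, ZMod.card, nsmul_eq_mul]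
          push_cast
          ring
  · have hn : ∀ q, ‖ψ (cl q)‖ = 1 := fun q => AddChar.norm_apply ψ _
    choose X1 hX1 using fun d : ZMod 3 => small_add (hV _ hn h1 d 0) (vanT_one D T _ hn h1 d 0) v
      (ε / 3) (by positivity)
    refine ⟨∑ d, X1 d, fun X hX => ?_⟩
    have hXt : ∀ d, X1 d ≤ X := fun d =>
      (single_le_sum (fun _ _ => Nat.zero_le _) (mem_univ d)).trans hX
    have e : ∑ S ∈ SxT T X, hS (fun q => ψ (cl q)) S *
        ((∑ d : ZMod 3, e3 (cE D T d 0 S)) * (F S - v)) = ∑ d : ZMod 3,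
        (∑ S ∈ SxT T X, hS (fun q => ψ (cl q)) S * (F S * e3 (cE D T d 0 S)) -
          v * ∑ S ∈ SxT T X, hS (fun q => ψ (cl q)) S * (1 * e3 (cE D T d 0 S))) := by
      have h8 : ∀ d : ZMod 3,
          (∑ S ∈ SxT T X, hS (fun q => ψ (cl q)) S * (F S * e3 (cE D T d 0 S)) -
          v * ∑ S ∈ SxT T X, hS (fun q => ψ (cl q)) S * (1 * e3 (cE D T d 0 S))) =
          ∑ S ∈ SxT T X, hS (fun q => ψ (cl q)) S * (e3 (cE D T d 0 S) * (F S - v)) := by
        intro d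
        rw [mul_sum, ← sum_sub_distrib]
        exact sum_congr rfl fun S _ => by ring
      rw [sum_congr rfl fun d _ => h8 d, sum_comm]
      refine sum_congr rfl fun S _ => ?_
      rw [sum_mul, mul_sum]
    rw [e]
    calc _ ≤ ∑ _d : ZMod 3, ε / 3 * X := by
          refine (norm_sum_le _ _).trans (sum_le_sum fun d _ => ?_)
          exact hX1 d X (hXt d)
      _ = ε * X := by
          rw [sum_const, card_univ, ZMod.card, nsmul_eq_mul]
          push_cast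
          ring

end

end Pool.Agent.Lib.MP_1a91b9_ntS3.DG
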