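import Pool.Agent.Lib.MP_1a91b9_ntS3.DG.ClsW

/-!
# MP_1a91b9_nt (cubic twists, classes modulo powers of three), part D: the densities in the classes
-/

set_option autoImplicit false
set_option linter.unusedSectionVars false

namespace Pool.Agent.Lib.MP_1a91b9_ntS3.DG

open Finset Pool.Agent.Lib.MP_1a91b9_ntH Pool.Agent.Lib.MP_1a91b9_ntK
  Pool.Agent.Lib.MP_1a91b9_ntK.Da

noncomputable section

variable {ι : Type} [DecidableEq ι] [PS ι] {G : Type} [AddCommGroup G] [Fintype G]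

/-- The moments over the class from the sums with the characters. -/
theorem mf_of_mw {cl : ι → G} {T : Finset ι} {kc : Finset ι → ℕ} {k : ℕ} {v : ℝ}
    (h : MW cl T fun S => (((kc S : ℝ) ^ k : ℝ) : ℂ) - (v : ℂ)) (g : G) :
    MF3 (SGT cl T g) kc (fun x => x ^ k) v := by
  intro ε hε
  obtain ⟨X₀, hX⟩ := h.cls g ε hε
  refine ⟨X₀, fun X hXX => ?_⟩
  have h1 := hX X hXX
  have h2 : ∑ S ∈ SGT cl T g X, ((((kc S : ℝ) ^ k : ℝ) : ℂ) - (v : ℂ)) =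
      ((∑ S ∈ SGT cl T g X, (kc S : ℝ) ^ k - v * (SGT cl T g X).card : ℝ) : ℂ) := by
    rw [sum_sub_distrib, sum_const, nsmul_eq_mul]
    push_cast
    ring
  rw [h2, Complex.norm_real, Real.norm_eq_abs] at h1
  exact h1

/-- The two bounds from the moments. -/
theorem bd_of_mf {cl : ι → G} {T : Finset ι} {g : G} {kc : Finset ι → ℕ}
    (hp : ∀ S, ∃ r, kc S = 3 ^ r)
    (hm : ∀ k, MF3 (SGT cl T g) kc (fun x => x ^ k) (Nk3 k)) (P : Finset ι → Prop)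
    (hP : ∀ S, kc S = 1 ↔ P S) : Bd3 cl T g P := by
  classical
  intro κ
  constructor
  · intro hκ ε hε
    obtain ⟨X₀, hX⟩ := dens3_lower hp hm hκ ε hε
    refine ⟨X₀, fun X hXX => (hX X hXX).trans (le_of_eq ?_)⟩
    congr 2
    exact filter_congr fun S _ => hP S
  · intro hκ ε hε
    obtain ⟨X₀, hX⟩ := dens3_upper hp hm hκ ε hε
    refine ⟨X₀, fun X hXX => le_trans (le_of_eq ?_) (hX X hXX)⟩
    congr 2
    exact filter_congr fun S _ => (hP S).symm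

/-- The two bounds from the moments, kernels with at least three elements. -/
theorem bd_of_mf3 {cl : ι → G} {T : Finset ι} {g : G} {kc : Finset ι → ℕ}
    (hp : ∀ S, ∃ r, kc S = 3 ^ r) (h3 : ∀ S, S ≠ ∅ → kc S ≠ 1)
    (hm : ∀ k, MF3 (SGT cl T g) kc (fun x => x ^ k) (3 ^ k * Nk3 k)) (P : Finset ι → Prop)
    (hP : ∀ X, ∀ S ∈ SGT cl T g X, kc S = 3 ↔ P S) : Bd3 cl T g P := by
  classical
  intro κ
  constructor
  · intro hκ ε hε
    obtain ⟨X₀, hX⟩ := dens_three hp h3 hm hκ ε hε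
    refine ⟨X₀, fun X hXX => (hX X hXX).trans (le_of_eq ?_)⟩
    congr 2
    exact filter_congr fun S hS => hP X S hS
  · intro hκ ε hε
    obtain ⟨X₀, hX⟩ := dens_three_upper hp h3 hm hκ ε hε
    refine ⟨X₀, fun X hXX => le_trans (le_of_eq ?_) (hX X hXX)⟩
    congr 2
    exact filter_congr fun S hS => (hP X S hS).symm

variable {D : Dat3b ι} {cl : ι → G}

theorem densG3_ne (hD : D.OKb) {C₂ : ℝ} (hC₂ : ∀ Y : ℕ, ((Sx ι Y).card : ℝ) ≤ C₂ * Y)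
    (hdi : Dich3 D cl) (T : Finset ι) (g : G) (τ σ : ZMod 3) (h : τ ≠ 0 ∨ σ ≠ 0) :
    Bd3 cl T g fun S => ((D.tw τ σ).N (eT T) 1 (S ∪ T)).det ≠ 0 := by
  have hτσ : ¬ (τ = 0 ∧ σ = 0) := fun h' => h.elim (fun h1 => h1 h'.1) fun h1 => h1 h'.2
  refine bd_of_mf (fun S => kc3_pow (D.tw τ σ) (eT T) 1 (S ∪ T)) (fun k => ?_) _
    fun S => kc3_eq_one (D.tw τ σ) (eT T) 1 (S ∪ T)
  refine mf_of_mw ?_ g
  have hM := MoG_N hD hC₂ τ σ T k
  simp only [if_neg hτσ] at hM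
  have h1 := mw_all hD hdi hM (vanT_N hD hC₂ τ σ T k)
  exact h1

theorem densG3_ze (hD : D.OKb) {C₂ : ℝ} (hC₂ : ∀ Y : ℕ, ((Sx ι Y).card : ℝ) ≤ C₂ * Y)
    (hdi : Dich3 D cl) (T : Finset ι) (g : G) :
    Bd3 cl T g fun S => D.kc (eT T) 0 (S ∪ T) = 3 := by
  have hkc : ∀ R : Finset ι, (D.tw 0 0).kc (eT T) 1 R = D.kc (eT T) 0 R := by
    intro R
    have h1 : (D.tw 0 0).N (eT T) 1 R = D.N (eT T) 0 R := by
      funext i j
      rw [Dat3.N, Dat3.N]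
      show (if i = j then eT T i * (1 * (0 * D.a i + 0 * D.b i) + _) else _) =
        (if i = j then eT T i * (0 * D.a i + _) else _)
      simp only [zero_mul, add_zero, mul_zero]
      rfl
    rw [Dat3.kc, Dat3.kc, h1]
  have h3 : ∀ S : Finset ι, S ≠ ∅ → D.kc (eT T) 0 (S ∪ T) ≠ 1 := fun S hS => by
    have := two_le_kc3 D.toDat3 (eT T) (eT_mul T) (R := S ∪ T) fun h => hS (union_eq_empty.1 h).1
    omega
  refine bd_of_mf3 (fun S => kc3_pow D.toDat3 (eT T) 0 (S ∪ T)) h3 (fun k => ?_) _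
    fun X S _ => Iff.rfl
  refine mf_of_mw ?_ g
  have hM := MoG_N hD hC₂ 0 0 T k
  simp only [and_self, if_true] at hM
  have h1 := mw_all hD hdi hM (vanT_N hD hC₂ 0 0 T k)
  simp only [hkc] at h1
  have e : (((3 : ℝ) ^ k * (Nk3 k : ℝ) : ℝ) : ℂ) = 3 ^ k * (Nk3 k : ℂ) := by
    push_cast
    rfl
  rw [e]
  exact h1

theorem densG3_bo (hD : D.OKb) {C₂ : ℝ} (hC₂ : ∀ Y : ℕ, ((Sx ι Y).card : ℝ) ≤ C₂ * Y)
    (hdi : Dich3 D cl) (T : Finset ι) (g : G) (τ σ ρ : ZMod 3) (hσ : σ ≠ 0) :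
    Bd3 cl T g fun S => (D.NB (eT T) τ σ ρ (S ∪ T)).det ≠ 0 := by
  refine bd_of_mf (fun S => D.kB_pow (eT T) τ σ ρ (S ∪ T)) (fun k => ?_) _
    fun S => D.kB_eq_one (eT T) τ σ ρ (S ∪ T)
  refine mf_of_mw ?_ g
  have hM := MoG_B hD hC₂ τ hσ ρ 0 T k
  simp only [zero_mul, add_zero] at hM
  exact mw_all hD hdi hM (vanT_B hD hC₂ τ σ ρ T k)

theorem densG3_bz (hD : D.OKb) {C₂ : ℝ} (hC₂ : ∀ Y : ℕ, ((Sx ι Y).card : ℝ) ≤ C₂ * Y)
    (hdi : Dich3 D cl) (T : Finset ι) (g : G) (ρ : ZMod 3)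
    (h0 : ∀ X, ∀ S ∈ SGT cl T g X, D.cA (eT T) (S ∪ T) = 0) :
    Bd3 cl T g fun S => D.kB (eT T) 0 0 ρ (S ∪ T) = 3 := by
  classical
  set kc : Finset ι → ℕ := fun S =>
    if D.cA (eT T) (S ∪ T) = 0 then D.kB (eT T) 0 0 ρ (S ∪ T) else 3 with hkc
  have hin : ∀ X, ∀ S ∈ SGT cl T g X, kc S = D.kB (eT T) 0 0 ρ (S ∪ T) := by
    intro X S hS
    simp only [hkc, if_pos (h0 X S hS)]
  have hp : ∀ S, ∃ r, kc S = 3 ^ r := by
    intro S
    simp only [hkc]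
    split_ifs
    · exact D.kB_pow (eT T) 0 0 ρ (S ∪ T)
    · exact ⟨1, rfl⟩
  have h3 : ∀ S : Finset ι, S ≠ ∅ → kc S ≠ 1 := fun S hS => by
    simp only [hkc]
    split_ifs with hA
    · exact D.kB_ne_one (eT T) (eT_mul T) ρ (fun h => hS (union_eq_empty.1 h).1) hA
    · omega
  refine bd_of_mf3 hp h3 (fun k => ?_) _ fun X S hS => by rw [hin X S hS]
  -- the moments
  have hM := MoG_B0 hD hC₂ ρ 0 T k
  simp only [zero_mul, add_zero] at hM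
  have hμ : ∀ c c' : ZMod 3, ∑ d : ZMod 3, (if c' = 0 then (Nk3 k : ℂ) *
      ((if c + d = 0 then 1 else 0) + (3 ^ k - 1) / 3) else 0) =
      if c' = 0 then (3 ^ k * Nk3 k : ℂ) else 0 := by
    intro c c'
    by_cases hc' : c' = 0
    · simp only [if_pos hc']
      rw [← mul_sum, sum_add_distrib]
      have h7 : ∑ d : ZMod 3, (if c + d = 0 then (1 : ℂ) else 0) = 1 := by
        rw [Fintype.sum_eq_single (-c)]
        · rw [add_neg_cancel, if_pos rfl]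
        · intro d hd
          rw [if_neg]
          intro h8
          exact hd (eq_neg_of_add_eq_zero_right h8)
      rw [h7, sum_const, card_univ, ZMod.card, nsmul_eq_mul]
      push_cast
      ring
    · simp only [if_neg hc', sum_const_zero]
  have h1 := mw_zero hD hdi hM hμ (vanT_B hD hC₂ 0 0 ρ T k)
  intro ε hε
  obtain ⟨X₀, hX⟩ := h1.cls g ε hε
  refine ⟨X₀, fun X hXX => ?_⟩
  have h2 := hX X hXX
  have h4 : ∑ S ∈ SGT cl T g X, (∑ d : ZMod 3, e3 (cE D T d 0 S)) *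
      ((((D.kB (eT T) 0 0 ρ (S ∪ T) : ℝ) ^ k : ℝ) : ℂ) - 3 ^ k * (Nk3 k : ℂ)) =
      ((3 * (∑ S ∈ SGT cl T g X, (kc S : ℝ) ^ k -
        3 ^ k * (Nk3 k : ℝ) * (SGT cl T g X).card) : ℝ) : ℂ) := by
    have h5 : ∀ S ∈ SGT cl T g X, (∑ d : ZMod 3, e3 (cE D T d 0 S)) *
        ((((D.kB (eT T) 0 0 ρ (S ∪ T) : ℝ) ^ k : ℝ) : ℂ) - 3 ^ k * (Nk3 k : ℂ)) =
        3 * ((((kc S : ℝ) ^ k : ℝ) : ℂ) - 3 ^ k * (Nk3 k : ℂ)) := by
      intro S hS
      have h6 : ∑ d : ZMod 3, e3 (cE D T d 0 S) = 3 := by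
        have h7 : ∀ d : ZMod 3, e3 (cE D T d 0 S) = 1 := by
          intro d
          unfold cE
          rw [h0 X S hS, mul_zero, zero_mul, add_zero, e3_zero]
        simp only [h7, sum_const, card_univ, ZMod.card, nsmul_eq_mul, mul_one]
        push_cast
        rfl
      rw [h6, hin X S hS]
    rw [sum_congr rfl h5, ← mul_sum, sum_sub_distrib, sum_const, nsmul_eq_mul]
    push_cast
    ring
  rw [h4, Complex.norm_real, Real.norm_eq_abs, abs_mul, abs_of_pos (by norm_num : (0 : ℝ) < 3)]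
    at h2
  have h8 := abs_nonneg (∑ S ∈ SGT cl T g X, (kc S : ℝ) ^ k -
    3 ^ k * (Nk3 k : ℝ) * (SGT cl T g X).card)
  have h9 : (0 : ℝ) ≤ ε * X := by positivity
  linarith

/-- **The densities in the classes of a group.** -/
theorem densG3 (hD : D.OKb) {C₂ : ℝ} (hC₂ : ∀ Y : ℕ, ((Sx ι Y).card : ℝ) ≤ C₂ * Y)
    (hdi : Dich3 D cl) : DensG3 D cl where
  ne := densG3_ne hD hC₂ hdi
  ze := densG3_ze hD hC₂ hdi
  bo := densG3_bo hD hC₂ hdi
  bz := densG3_bz hD hC₂ hdi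

end

end Pool.Agent.Lib.MP_1a91b9_ntS3.DG
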