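import Pool.Agent.Lib.MP_1a91b9_ntS3.DG.EngW
import Pool.Agent.Lib.MP_1a91b9_ntS3.DG.Def

/-!
# MP_1a91b9_nt (cubic twists, classes modulo powers of three), part D: the normalised sums with a
weight
-/

set_option autoImplicit false
set_option linter.unusedSectionVars false

namespace Pool.Agent.Lib.MP_1a91b9_ntS3.DG

open Finset Pool.Agent.Lib.MP_1a91b9_ntH Pool.Agent.Lib.MP_1a91b9_ntK
  Pool.Agent.Lib.MP_1a91b9_ntK.Da Pool.Agent.Lib.MP_1a91b9_ntK2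

noncomputable section

variable {ι : Type} [DecidableEq ι] [PS ι]

/-- The weight for the system with one more prime. -/
def hO (h : ι → ℂ) : Option ι → ℂ
  | none => 1
  | some q => h q

theorem norm_hO {h : ι → ℂ} (hn : ∀ q, ‖h q‖ = 1) : ∀ x, ‖hO h x‖ = 1
  | none => norm_one
  | some q => hn q

theorem hS_mp (h : ι → ℂ) (S : Finset ι) : hS (hO h) (mp S) = hS h S := prod_mp S _

open Classical in
theorem sum_ins (B : Finset ι) (X : ℕ) (F : Finset (Option ι) → ℂ) :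
    ∑ S ∈ (Sx (Option ι) X).filter (fun S => Disjoint S (insertNone B)), F S =
      ∑ S ∈ (Sx ι X).filter (fun S => Disjoint S B), F (mp S) := by
  rw [sum_filter, sum_filter, sum_Sx_opt]
  have h2 : ∑ S ∈ Sx ι (X / 3), (if Disjoint (insertNone S) (insertNone B) then
      F (insertNone S) else 0) = 0 := by
    refine sum_eq_zero fun S _ => if_neg ?_
    rw [ins_disj_iff]
    exact fun h3 => h3.1 none_mem_insertNone
  rw [h2, add_zero]
  refine sum_congr rfl fun S _ => ?_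
  refine if_congr ?_ rfl rfl
  rw [mp_disj_iff, erase_ins]

theorem HzB_ext (D : Dat3b ι) (B : Finset ι) {h : ι → ℂ} (hz : Mz3 D h) :
    HzB (ext D) (insertNone B) (hO h) := by
  classical
  intro t c ε hε
  obtain ⟨X₀, hX⟩ := hz B (fun p => t (some p)) c (t none) ε hε
  refine ⟨X₀, fun X hXX => ?_⟩
  refine le_trans (le_of_eq ?_) (hX X hXX)
  rw [SxT, sum_ins B X]
  congr 1
  refine sum_congr rfl fun S _ => ?_
  rw [prod_mp]
  refine prod_congr rfl fun q _ => ?_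
  rw [ext_ex, erase_ins, if_pos none_mem_insertNone]
  rfl

variable {L : Type} [Fintype L] [DecidableEq L]

/-- **The engine with two class coordinates and a weight.** -/
theorem engine3b_w (D : Dat3b ι) (hD : D.OKb) {C₂ : ℝ}
    (hC₂ : ∀ Y : ℕ, ((Sx ι Y).card : ℝ) ≤ C₂ * Y) (Λ : LS3b L ι) (hΛ : Λ.toLS3.OK)
    {h : ι → ℂ} (hn : ∀ q, ‖h q‖ = 1) (hz : Mz3 D h) (ε : ℝ) (hε : 0 < ε) :
    ∃ X₀ : ℕ, ∀ X : ℕ, X₀ ≤ X →
      ‖∑ S ∈ SxT Λ.B X, hS h S * (((Λ.m : ℂ)⁻¹) ^ S.card *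
        ∑ f : S → L, e3 (D.eSb Λ S f))‖ ≤ ε * X := by
  classical
  obtain ⟨X₀, h1⟩ := engine_w (ext D) (ext_OK hD hC₂) (extL Λ) (extL_OK hΛ) (norm_hO hn)
    (HzB_ext D Λ.B hz) ε hε
  refine ⟨X₀, fun X hX => ?_⟩
  have h2 := h1 X hX
  have hB : (extL Λ).B = insertNone Λ.B := rfl
  have hm : (extL Λ).m = Λ.m := rfl
  rw [hB, hm, sum_ins Λ.B X] at h2
  refine le_trans (le_of_eq ?_) h2
  rw [SxT]
  congr 1
  refine sum_congr rfl fun S _ => ?_
  have hc : (mp S).card = S.card := card_map _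
  rw [hc, hS_mp]
  congr 2
  simp only [ext_eS]
  refine (Fintype.sum_equiv (Equiv.arrowCongr (mpEq S) (Equiv.refl L))
    _ _ fun f => ?_)
  congr 2
  funext j
  simp [Equiv.arrowCongr]

/-- **The vanishing of the normalised sums with a weight.** -/
theorem Ex_w {D : Dat3b ι} (hD : D.OKb) {C₂ : ℝ}
    (hC₂ : ∀ Y : ℕ, ((Sx ι Y).card : ℝ) ≤ C₂ * Y) {k : ℕ} (hk : 1 ≤ k)
    (γ δ : Lab3 k → ZMod 3) (T : Finset ι) {h : ι → ℂ} (hn : ∀ q, ‖h q‖ = 1) (hz : Mz3 D h)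
    (ε : ℝ) (hε : 0 < ε) :
    ∃ X₀ : ℕ, ∀ X : ℕ, X₀ ≤ X → ‖∑ S ∈ SxT T X, hS h S * Ex D γ δ T S‖ ≤ ε * X := by
  have hN : (0 : ℝ) < Fintype.card (T → Lab3 k) := by
    exact_mod_cast Fintype.card_pos
  choose X0 h0 using fun t : T → Lab3 k => engine3b_w D hD hC₂ (LSg k γ δ T (tE T t))
      (LSg_OK hk γ δ T (tE T t)) hn hz (ε / Fintype.card (T → Lab3 k)) (by positivity)
  refine ⟨∑ t, X0 t, fun X hX => ?_⟩
  have hXt : ∀ t, X0 t ≤ X := fun t =>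
    (single_le_sum (fun _ _ => Nat.zero_le _) (mem_univ t)).trans hX
  have hm : ∀ t : T → Lab3 k, (((LSg k γ δ T (tE T t)).m : ℕ) : ℂ) = 3 ^ k := fun t => by
    show (((3 ^ k : ℕ)) : ℂ) = 3 ^ k
    push_cast
    rfl
  have e1 : (∑ S ∈ SxT T X, hS h S * Ex D γ δ T S) * (3 ^ k) ^ T.card =
      ∑ t : T → Lab3 k, e3 (EG D (eT T) γ δ T t) *
        ∑ S ∈ SxT T X, hS h S * ((((LSg k γ δ T (tE T t)).m : ℂ)⁻¹) ^ S.card *
          ∑ f : S → Lab3 k, e3 (D.eSb (LSg k γ δ T (tE T t)) S f)) := by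
    rw [sum_mul]
    have h4 : ∀ S ∈ SxT T X, hS h S * Ex D γ δ T S * (3 ^ k) ^ T.card =
        ∑ t : T → Lab3 k, e3 (EG D (eT T) γ δ T t) *
          (hS h S * ((((3 : ℂ) ^ k)⁻¹) ^ S.card *
            ∑ f : S → Lab3 k, e3 (D.eSb (LSg k γ δ T (tE T t)) S f))) := fun S hS => by
      rw [mul_assoc, Ex_mul D hD.ok.sym γ δ (mem_SxT.1 hS).2, mul_sum]
      exact sum_congr rfl fun t _ => by ring
    rw [sum_congr rfl h4, sum_comm]
    refine sum_congr rfl fun t _ => ?_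
    rw [mul_sum]
    exact sum_congr rfl fun S _ => by rw [hm t]
  have h3 : (1 : ℝ) ≤ ‖((3 : ℂ) ^ k) ^ T.card‖ := by
    rw [norm_pow, norm_pow]
    exact one_le_pow₀ (one_le_pow₀ (by norm_num))
  calc ‖∑ S ∈ SxT T X, hS h S * Ex D γ δ T S‖
      ≤ ‖∑ S ∈ SxT T X, hS h S * Ex D γ δ T S‖ * ‖((3 : ℂ) ^ k) ^ T.card‖ :=
        le_mul_of_one_le_right (norm_nonneg _) h3
    _ = ‖∑ t : T → Lab3 k, e3 (EG D (eT T) γ δ T t) *
        ∑ S ∈ SxT T X, hS h S * ((((LSg k γ δ T (tE T t)).m : ℂ)⁻¹) ^ S.card *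
          ∑ f : S → Lab3 k, e3 (D.eSb (LSg k γ δ T (tE T t)) S f))‖ := by
      rw [← norm_mul, e1]
    _ ≤ ∑ t : T → Lab3 k, ε / Fintype.card (T → Lab3 k) * X := by
      refine (norm_sum_le _ _).trans (sum_le_sum fun t _ => ?_)
      rw [norm_mul, norm_e3, one_mul]
      exact h0 t X (hXt t)
    _ = ε * X := by
      rw [sum_const, card_univ, nsmul_eq_mul]
      field_simp

end

end Pool.Agent.Lib.MP_1a91b9_ntS3.DG
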