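import Pool.Agent.Lib.MP_1a91b9_ntS3.DG.Wt
import Pool.Agent.Lib.MP_1a91b9_ntK.D.Mo3

/-!
# MP_1a91b9_nt (cubic twists, classes modulo powers of three), part D: the engine with a weight,
the contribution of a maximal unlinked set
-/

set_option autoImplicit false
set_option linter.unusedSectionVars false

namespace Pool.Agent.Lib.MP_1a91b9_ntS3.DG

open Finset Pool.Agent.Lib.MP_1a91b9_ntH Pool.Agent.Lib.MP_1a91b9_ntK
  Pool.Agent.Lib.MP_1a91b9_ntK.D Pool.Agent.Lib.MP_1a91b9_ntK.Da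

noncomputable section

variable {ι : Type} [DecidableEq ι] {L : Type} [Fintype L] [DecidableEq L]

/-- The mean values of the weight times the characters of the fixed primes are zero. -/
def HzB [PS ι] (D : Dat3 ι) (B : Finset ι) (h : ι → ℂ) : Prop :=
  ∀ (t : ι → ZMod 3) (c : ZMod 3) (ε : ℝ), 0 < ε → ∃ X₀ : ℕ, ∀ X : ℕ, X₀ ≤ X →
    ‖∑ S ∈ SxT B X, ∏ q ∈ S, (h q * e3 (D.ex B t c q))‖ ≤ ε * X

theorem hS_prod (h g : ι → ℂ) (S : Finset ι) : hS h S * ∏ q ∈ S, g q = ∏ q ∈ S, (h q * g q) := by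
  unfold hS
  rw [prod_mul_distrib]

theorem inner_w (D : Dat3 ι) (hD : D.Sym) (Λ : LS3 L ι) (hΛ : Λ.OK) (h : ι → ℂ) (U : Finset L)
    (hU : Λ.Unl U) (b : L → Finset ι) (hbB : Disjoint (uni b) Λ.B) (S : Finset ι)
    (hdS : Disjoint S (uni b)) :
    ∑ d ∈ FamU U S, FFw D Λ h (fun l => b l ∪ d l) =
      (hS h (uni b) * (((Λ.m : ℂ)⁻¹) ^ (uni b).card * e3 (D.ee Λ b))) *
        ∏ q ∈ S, (h q * Hq D Λ U b q) := by
  have h1 : ∀ d ∈ FamU U S, FFw D Λ h (fun l => b l ∪ d l) =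
      hS h (uni b) * hS h S * D.FF Λ (fun l => b l ∪ d l) := by
    intro d hd
    unfold FFw
    rw [uni_union, (mem_FamU.1 hd).2.1, hS_union h hdS.symm]
  rw [sum_congr rfl h1, ← mul_sum, inner_eq D hD Λ hΛ U hU b hbB S hdS, ← hS_prod]
  ring

variable [PS ι]

open Classical in
theorem inner_nontriv_w (D : Dat3 ι) (hD : D.OK) (Λ : LS3 L ι) (hΛ : Λ.OK) {h : ι → ℂ}
    (hn : ∀ q, ‖h q‖ = 1) :
    ∃ C : ℝ, 0 < C ∧ ∀ U ∈ Λ.Us, ∀ V : ℕ, 1 ≤ V → ∀ b ∈ SmB ι V U, uni b ≠ ∅ → ∀ Y : ℕ, 2 ≤ Y →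
      ‖∑ S ∈ (Sx ι Y).filter (fun S => Disjoint S (uni b)), ∑ d ∈ FamU U S,
        FFw D Λ h (fun l => b l ∪ d l)‖ ≤
        C * Y * Real.log Y ^ (-(1 / ((2 * Λ.m : ℕ) : ℝ))) * (1 + Real.log V) := by
  obtain ⟨C1, hC1⟩ := hD.cheb
  obtain ⟨C2, hC2⟩ := hD.zt
  obtain ⟨C3, hC3⟩ := hD.cb
  have hM2 : 2 ≤ 2 * Λ.m := by
    have := hΛ.two
    omega
  obtain ⟨K, hK, hub⟩ := ub hC1 hC2 (2 * Λ.m) hM2
  have hm2 : (2 : ℝ) ≤ Λ.m := by exact_mod_cast hΛ.two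
  set M : ℕ := 2 * Λ.m with hM
  have hMr : (2 : ℝ) ≤ M := by exact_mod_cast hM2
  have hM0 : (0 : ℝ) < M := by linarith
  set LB : ℝ := Real.log (nm Λ.B) with hLB
  have hLB0 : 0 ≤ LB := Real.log_nonneg (by exact_mod_cast one_le_nm Λ.B)
  refine ⟨K * ((|C3| + 1) * (1 + LB + Fintype.card L)) + 1, by positivity, ?_⟩
  intro U hU V hV b hb hne Y hY
  rw [mem_SmB] at hb
  obtain ⟨hbV, hbPD, hbU⟩ := hb
  have hUU := (Λ.mem_Us U).1 hU
  have hYr : (2 : ℝ) ≤ Y := by exact_mod_cast hY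
  have hlogY : 0 < Real.log Y := Real.log_pos (by linarith)
  have hVr : (1 : ℝ) ≤ V := by exact_mod_cast hV
  have hlogV : 0 ≤ Real.log V := Real.log_nonneg hVr
  have hE : 0 ≤ (Y : ℝ) * Real.log Y ^ (-(1 / (M : ℝ))) * (1 + Real.log V) := by positivity
  by_cases hbB : Disjoint (uni b) Λ.B
  swap
  · rw [Finset.sum_eq_zero fun S _ => Finset.sum_eq_zero fun d _ => by
      show hS h _ * D.FF Λ (fun l => b l ∪ d l) = 0
      rw [FF_zero D Λ b d hbB, mul_zero], norm_zero]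
    have : 0 ≤ (K * ((|C3| + 1) * (1 + LB + Fintype.card L)) + 1) *
        (Y * Real.log Y ^ (-(1 / (M : ℝ))) * (1 + Real.log V)) := by positivity
    calc (0 : ℝ) ≤ _ := this
      _ = _ := by ring
  -- rewriting the inner sums
  have e1 : ∑ S ∈ (Sx ι Y).filter (fun S => Disjoint S (uni b)), ∑ d ∈ FamU U S,
      FFw D Λ h (fun l => b l ∪ d l) =
      (hS h (uni b) * (((Λ.m : ℂ)⁻¹) ^ (uni b).card * e3 (D.ee Λ b))) *
        ∑ S ∈ (Sx ι Y).filter (fun S => Disjoint S (uni b)), ∏ q ∈ S, (h q * Hq D Λ U b q) := by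
    rw [Finset.sum_congr rfl fun S hS => inner_w D hD.sym Λ hΛ h U hUU.1 b hbB S
      (Finset.mem_filter.1 hS).2, ← Finset.mul_sum]
  have key : ‖∑ S ∈ (Sx ι Y).filter (fun S => Disjoint S (uni b)),
      ∏ q ∈ S, (h q * Hq D Λ U b q)‖ ≤ K * Y * Real.log Y ^ (-(1 / (M : ℝ))) *
        (((|C3| + 1) * (1 + LB + Fintype.card L)) * (1 + Real.log V)) := by
    obtain ⟨T, t, c, hT0, hTs, ht, hTb⟩ := Hq_bound D hD.sym Λ hΛ U hU b hbPD hbB hbU hne
    have hch := hC3 T t c ht (Or.inl hT0)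
    set w : ι → ℝ := fun q => if q ∈ uni b then 0 else ‖Hq D Λ U b q‖ with hw
    have hw0 : ∀ q, 0 ≤ w q ∧ w q ≤ ((M - 1 : ℝ) + (D.ch T t c q).re) / M := by
      intro q
      have h1 := (abs_le.1 (abs_ch_re D T t c q)).1
      simp only [hw]
      split_ifs with hq
      · exact ⟨le_rfl, div_nonneg (by linarith) hM0.le⟩
      · exact ⟨norm_nonneg _, hTb q hq⟩
    have h2 := hub _ _ hch w hw0 Y hY
    have h3 : ‖∑ S ∈ (Sx ι Y).filter (fun S => Disjoint S (uni b)),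
        ∏ q ∈ S, (h q * Hq D Λ U b q)‖ ≤
        ∑ S ∈ Sx ι Y, ∏ q ∈ S, w q := by
      refine (norm_sum_le _ _).trans ?_
      have h4 : ∀ S ∈ (Sx ι Y).filter (fun S => Disjoint S (uni b)),
          ‖∏ q ∈ S, (h q * Hq D Λ U b q)‖ = ∏ q ∈ S, w q := by
        intro S hS
        rw [norm_prod]
        refine Finset.prod_congr rfl fun q hq => ?_
        rw [norm_mul, hn, one_mul]
        simp only [hw]
        rw [if_neg (Finset.disjoint_left.1 (Finset.mem_filter.1 hS).2 hq)]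
      rw [Finset.sum_congr rfl h4]
      refine Finset.sum_le_sum_of_subset_of_nonneg (Finset.filter_subset _ _) fun S _ _ => ?_
      exact Finset.prod_nonneg fun q _ => (hw0 q).1
    refine h3.trans (h2.trans ?_)
    refine mul_le_mul_of_nonneg_left ?_ (by positivity)
    set B : ℝ := C3 * (1 + Real.log (nm T)) with hB
    have hB1 : 1 ≤ B := hch.hB
    have h5 : B ^ (1 / (M : ℝ)) ≤ B := by
      calc B ^ (1 / (M : ℝ)) ≤ B ^ (1 : ℝ) :=
            Real.rpow_le_rpow_of_exponent_le hB1 (by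
              rw [div_le_one hM0]
              linarith)
        _ = B := Real.rpow_one B
    refine h5.trans ?_
    have hTn : (1 : ℝ) ≤ nm T := by exact_mod_cast one_le_nm T
    have h6 : Real.log (nm T) ≤ LB + Fintype.card L * Real.log V := by
      have h7 : nm T ≤ nm Λ.B * V ^ Fintype.card L := by
        refine (nm_mono hTs).trans ?_
        rw [nm_union hbB.symm, nm_uni hbPD]
        exact Nat.mul_le_mul_left _ (nmf_le_pow (U := U) (mem_SmB.2 ⟨hbV, hbPD, hbU⟩))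
      have h8 : (nm T : ℝ) ≤ (nm Λ.B : ℝ) * (V : ℝ) ^ Fintype.card L := by exact_mod_cast h7
      have h9 := Real.log_le_log (by linarith) h8
      have hnB : (0 : ℝ) < nm Λ.B := by exact_mod_cast one_le_nm Λ.B
      rwa [Real.log_mul hnB.ne' (by positivity), Real.log_pow] at h9
    have h10 : 0 ≤ Real.log (nm T) := Real.log_nonneg hTn
    have hcL : (0 : ℝ) ≤ Fintype.card L := Nat.cast_nonneg _
    calc B ≤ (|C3| + 1) * (1 + Real.log (nm T)) := by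
          rw [hB]
          refine mul_le_mul_of_nonneg_right ?_ (by linarith)
          have := le_abs_self C3
          linarith
      _ ≤ (|C3| + 1) * (1 + (LB + Fintype.card L * Real.log V)) := by
          refine mul_le_mul_of_nonneg_left (by linarith) (by positivity)
      _ ≤ (|C3| + 1) * ((1 + LB + Fintype.card L) * (1 + Real.log V)) := by
          refine mul_le_mul_of_nonneg_left ?_ (by positivity)
          have : 0 ≤ (1 + LB) * Real.log V := by positivity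
          nlinarith
      _ = _ := by ring
  rw [e1, norm_mul, norm_mul, norm_hS hn, one_mul, norm_mul, norm_e3, mul_one]
  have hmi : ‖((Λ.m : ℂ)⁻¹) ^ (uni b).card‖ ≤ 1 := by
    rw [norm_pow, norm_inv, Complex.norm_natCast]
    refine pow_le_one₀ (by positivity) ?_
    exact inv_le_one_of_one_le₀ (by linarith)
  calc _ ≤ 1 * _ := mul_le_mul_of_nonneg_right hmi (norm_nonneg _)
    _ = _ := one_mul _
    _ ≤ _ := key
    _ = (K * ((|C3| + 1) * (1 + LB + Fintype.card L))) *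
        (Y * Real.log Y ^ (-(1 / (M : ℝ))) * (1 + Real.log V)) := by ring
    _ ≤ (K * ((|C3| + 1) * (1 + LB + Fintype.card L)) + 1) *
        (Y * Real.log Y ^ (-(1 / (M : ℝ))) * (1 + Real.log V)) := by
        refine mul_le_mul_of_nonneg_right (by linarith) hE
    _ = _ := by ring

private theorem innerT_small (δ K B ε : ℝ) (hδ : 0 < δ) (hK : 0 < K) (hB : 1 ≤ B) (hε : 0 < ε) :
    ∃ X₀ : ℕ, ∀ X : ℕ, X₀ ≤ X → K * X * Real.log X ^ (-δ) * B ^ δ ≤ ε * X := by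
  have h1 : Filter.Tendsto (fun X : ℕ => Real.log (X : ℝ) ^ (-δ)) Filter.atTop (nhds 0) :=
    (tendsto_rpow_neg_atTop hδ).comp
      (Real.tendsto_log_atTop.comp tendsto_natCast_atTop_atTop)
  have hP : 0 < K * B ^ δ := mul_pos hK (Real.rpow_pos_of_pos (by linarith) _)
  have h2 : ∀ᶠ X : ℕ in Filter.atTop, Real.log (X : ℝ) ^ (-δ) < ε / (K * B ^ δ) :=
    h1.eventually (gt_mem_nhds (div_pos hε hP))
  obtain ⟨X₀, h3⟩ := Filter.eventually_atTop.1 h2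
  refine ⟨X₀, fun X hX => ?_⟩
  have h4 := h3 X hX
  rw [lt_div_iff₀ hP] at h4
  have h5 : K * X * Real.log X ^ (-δ) * B ^ δ = (Real.log (X : ℝ) ^ (-δ) * (K * B ^ δ)) * X := by
    ring
  rw [h5]
  exact mul_le_mul_of_nonneg_right h4.le (Nat.cast_nonneg X)

theorem innerT_sum_w (D : Dat3 ι) (hD : D.OK) (Λ : LS3 L ι) (hΛ : Λ.OK) (h : ι → ℂ) (X : ℕ)
    (U : Finset L) (hU : Λ.Unl U) :
    ∑ S ∈ Sx ι X, ∑ d ∈ FamU U S, FFw D Λ h d =
      ∑ S ∈ Sx ι X, ∏ q ∈ S, (h q * Hq D Λ U (fun _ => ∅) q) := by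
  refine sum_congr rfl fun S _ => ?_
  have h2 := inner_w D hD.sym Λ hΛ h U hU (fun _ => ∅)
    (by rw [uni_empty]; exact disjoint_empty_left _) S
    (by rw [uni_empty]; exact disjoint_empty_right _)
  rw [uni_empty, ee_empty, card_empty, pow_zero, e3_zero, one_mul] at h2
  have h3 : hS h (∅ : Finset ι) = 1 := prod_empty
  rw [h3, one_mul, one_mul] at h2
  simpa only [empty_union] using h2

theorem innerT_one_w (D : Dat3 ι) (hD : D.OK) (Λ : LS3 L ι) (hΛ : Λ.OK) {h : ι → ℂ}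
    (hn : ∀ q, ‖h q‖ = 1) (hz : HzB D Λ.B h) (ε : ℝ) (hε : 0 < ε)
    (U : Finset L) (hU : U ∈ Λ.Us) :
    ∃ X₀ : ℕ, ∀ X : ℕ, X₀ ≤ X →
      ‖∑ S ∈ Sx ι X, ∏ q ∈ S, (h q * Hq D Λ U (fun _ => ∅) q)‖ ≤ ε * X := by
  classical
  have hU' := (Λ.mem_Us U).1 hU
  have hm := hΛ.two
  have hne : U.Nonempty := by
    rw [← card_pos, hU'.2]
    omega
  by_cases hB : ∃ l ∈ U, ∃ l' ∈ U, Λ.c l ≠ Λ.c l' ∨ ∃ p ∈ Λ.B, Λ.t l p ≠ Λ.t l' p
  · obtain ⟨l, hl, l', hl', hll⟩ := hB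
    obtain ⟨T, t, c, hTc, -, ht, hH⟩ := Hq_bound0 D hD.sym Λ hΛ U hU'.2 l l' hl hl' hll
    obtain ⟨C, hC⟩ := hD.cb
    obtain ⟨C1, hC1⟩ := hD.cheb
    obtain ⟨C2, hC2⟩ := hD.zt
    have hCB := hC T t c ht hTc
    have hM2 : 2 ≤ 2 * Λ.m := by omega
    obtain ⟨K, hK, hub⟩ := ub hC1 hC2 (2 * Λ.m) hM2
    have hm0 : (0 : ℝ) < (2 * Λ.m : ℕ) := by
      have : 0 < 2 * Λ.m := by omega
      exact_mod_cast this
    obtain ⟨X₀, hX₀⟩ := innerT_small (1 / ((2 * Λ.m : ℕ) : ℝ)) K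
      (C * (1 + Real.log (nm T))) ε (by positivity) hK hCB.hB hε
    refine ⟨max X₀ 2, fun X hX => ?_⟩
    have h1 : ‖∑ S ∈ Sx ι X, ∏ q ∈ S, (h q * Hq D Λ U (fun _ => ∅) q)‖ ≤
        ∑ S ∈ Sx ι X, ∏ q ∈ S, ‖Hq D Λ U (fun _ => ∅) q‖ := by
      refine (norm_sum_le _ _).trans (sum_le_sum fun S _ => ?_)
      rw [norm_prod]
      refine le_of_eq (prod_congr rfl fun q _ => ?_)
      rw [norm_mul, hn, one_mul]
    have h2 := hub (fun q => (D.ch T t c q).re) _ hCB (fun q => ‖Hq D Λ U (fun _ => ∅) q‖)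
      (fun q => ⟨norm_nonneg _, hH q⟩) X ((le_max_right _ _).trans hX)
    have h3 := hX₀ X ((le_max_left _ _).trans hX)
    exact h1.trans (h2.trans h3)
  push Not at hB
  obtain ⟨l₀, hl₀⟩ := hne
  have hHq : ∀ q, Hq D Λ U (fun _ => ∅) q =
      if q ∈ Λ.B then 0 else e3 (D.ex Λ.B (Λ.t l₀) (Λ.c l₀) q) := fun q =>
    Hq_const D Λ hΛ U hU'.2 (Λ.t l₀) (Λ.c l₀) (fun l hl => hB l hl l₀ hl₀) q
  have hsum : ∀ X : ℕ, ∑ S ∈ Sx ι X, ∏ q ∈ S, (h q * Hq D Λ U (fun _ => ∅) q) =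
      ∑ S ∈ SxT Λ.B X, ∏ q ∈ S, (h q * e3 (D.ex Λ.B (Λ.t l₀) (Λ.c l₀) q)) := by
    intro X
    rw [SxT, sum_filter]
    refine sum_congr rfl fun S _ => ?_
    by_cases hS : Disjoint S Λ.B
    · rw [if_pos hS]
      refine prod_congr rfl fun q hq => ?_
      rw [hHq q, if_neg (disjoint_left.1 hS hq)]
    · rw [if_neg hS]
      rw [disjoint_left] at hS
      push Not at hS
      obtain ⟨q, hq, hqB⟩ := hS
      exact prod_eq_zero hq (by rw [hHq q, if_pos hqB, mul_zero])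
  obtain ⟨X₀, hX₀⟩ := hz (Λ.t l₀) (Λ.c l₀) ε hε
  refine ⟨X₀, fun X hX => ?_⟩
  rw [hsum X]
  exact hX₀ X hX

theorem inner_triv_w (D : Dat3 ι) (hD : D.OK) (Λ : LS3 L ι) (hΛ : Λ.OK) {h : ι → ℂ}
    (hn : ∀ q, ‖h q‖ = 1) (hz : HzB D Λ.B h) (ε : ℝ) (hε : 0 < ε) :
    ∃ X₀ : ℕ, ∀ X : ℕ, X₀ ≤ X → ∀ U ∈ Λ.Us,
      ‖∑ S ∈ Sx ι X, ∑ d ∈ FamU U S, FFw D Λ h d‖ ≤ ε * X := by
  have key : ∀ U : Finset L, ∃ X₀ : ℕ, U ∈ Λ.Us → ∀ X : ℕ, X₀ ≤ X →
      ‖∑ S ∈ Sx ι X, ∏ q ∈ S, (h q * Hq D Λ U (fun _ => ∅) q)‖ ≤ ε * X := by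
    intro U
    by_cases hU : U ∈ Λ.Us
    · obtain ⟨X₀, hX₀⟩ := innerT_one_w D hD Λ hΛ hn hz ε hε U hU
      exact ⟨X₀, fun _ => hX₀⟩
    · exact ⟨0, fun hc => absurd hc hU⟩
  choose X0 hX0 using key
  refine ⟨univ.sup fun U : Finset L => X0 U, fun X hX U hU => ?_⟩
  rw [innerT_sum_w D hD Λ hΛ h X U ((Λ.mem_Us U).1 hU).1]
  exact hX0 U hU X ((le_sup (f := fun U : Finset L => X0 U) (mem_univ U)).trans hX)

theorem main_w (D : Dat3 ι) (hD : D.OK) (Λ : LS3 L ι) (hΛ : Λ.OK) {h : ι → ℂ}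
    (hn : ∀ q, ‖h q‖ = 1) (hz : HzB D Λ.B h) :
    ∃ C : ℝ, 0 < C ∧ ∀ ε : ℝ, 0 < ε → ∃ X₀ : ℕ, ∀ X V : ℕ, X₀ ≤ X → 1 ≤ V →
      V ^ (2 * Fintype.card L) ≤ X → ∀ U ∈ Λ.Us,
      ‖∑ d ∈ BoxS ι X V U, FFw D Λ h d‖ ≤
        ε * X + C * X * Real.log X ^ (-(1 / ((2 * Λ.m : ℕ) : ℝ))) *
          (1 + Real.log V) ^ (Fintype.card L + 1) := by
  classical
  obtain ⟨C1, hC1, hin⟩ := inner_nontriv_w D hD Λ hΛ hn
  obtain ⟨C2, hzt⟩ := hD.zt
  obtain ⟨K, hK1, hharm⟩ := harm hzt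
  have hK0 : (0 : ℝ) < K := by linarith
  refine ⟨4 * C1 * K ^ Fintype.card L, by positivity, ?_⟩
  intro ε hε
  obtain ⟨X₀, hX₀⟩ := inner_triv_w D hD Λ hΛ hn hz ε hε
  refine ⟨max X₀ 16, ?_⟩
  intro X V hX hV hVX U hU
  have hXX₀ : X₀ ≤ X := le_trans (le_max_left _ _) hX
  have hX16 : 16 ≤ X := le_trans (le_max_right _ _) hX
  have hM2' : 2 ≤ 2 * Λ.m := by
    have := hΛ.two
    omega
  set M : ℕ := 2 * Λ.m with hM
  have hm2 : (2 : ℝ) ≤ M := by exact_mod_cast hM2'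
  have hδ0 : (0 : ℝ) < 1 / (M : ℝ) := by positivity
  have hδ1 : 1 / (M : ℝ) ≤ 1 := by
    rw [div_le_one (by linarith)]
    linarith
  have hlV : 0 ≤ Real.log V := Real.log_nonneg (by exact_mod_cast hV)
  have hlX : 0 ≤ Real.log X ^ (-(1 / (M : ℝ))) :=
    Real.rpow_nonneg (Real.log_nonneg (by exact_mod_cast (by omega : 1 ≤ X))) _
  have hb0 : (fun _ : L => (∅ : Finset ι)) ∈ SmB ι V U := by
    rw [mem_SmB]
    refine ⟨fun l => ?_, fun l m _ => ?_, fun l _ => rfl⟩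
    · rw [nm_empty]
      exact hV
    · exact disjoint_empty_left _
  have hn0 : nmf (fun _ : L => (∅ : Finset ι)) = 1 := by
    unfold nmf
    simp [nm_empty]
  rw [sum_splitC X V hV U (FFw D Λ h), ← add_sum_erase _ _ hb0]
  have hT0 : ∑ S ∈ (Sx ι (X / nmf (fun _ : L => (∅ : Finset ι)))).filter
      (fun S => Disjoint S (uni (fun _ : L => (∅ : Finset ι)))),
      ∑ d ∈ FamU U S, FFw D Λ h (fun l => (fun _ : L => (∅ : Finset ι)) l ∪ d l) =
      ∑ S ∈ Sx ι X, ∑ d ∈ FamU U S, FFw D Λ h d := by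
    rw [hn0, Nat.div_one, uni_empty, filter_true_of_mem fun S _ => disjoint_empty_right S]
    refine sum_congr rfl fun S _ => sum_congr rfl fun d _ => ?_
    have : (fun l => (fun _ : L => (∅ : Finset ι)) l ∪ d l) = d := by
      funext l
      exact empty_union _
    rw [this]
  rw [hT0]
  have hmain := hX₀ X hXX₀ U hU
  have hrest : ‖∑ b ∈ (SmB ι V U).erase (fun _ : L => (∅ : Finset ι)),
      ∑ S ∈ (Sx ι (X / nmf b)).filter (fun S => Disjoint S (uni b)),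
        ∑ d ∈ FamU U S, FFw D Λ h (fun l => b l ∪ d l)‖ ≤
      4 * C1 * K ^ Fintype.card L * X * Real.log X ^ (-(1 / (M : ℝ))) *
        (1 + Real.log V) ^ (Fintype.card L + 1) := by
    have hterm : ∀ b ∈ (SmB ι V U).erase (fun _ : L => (∅ : Finset ι)),
        ‖∑ S ∈ (Sx ι (X / nmf b)).filter (fun S => Disjoint S (uni b)),
          ∑ d ∈ FamU U S, FFw D Λ h (fun l => b l ∪ d l)‖ ≤
        4 * C1 * X * Real.log X ^ (-(1 / (M : ℝ))) * (1 + Real.log V) * (1 / nmf b) := by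
      intro b hb
      obtain ⟨hne, hb'⟩ := mem_erase.1 hb
      have hub : uni b ≠ ∅ := by
        intro h
        apply hne
        funext l
        exact subset_empty.1 (h ▸ sub_uni b l)
      have hP1 := one_le_nmf b
      have hP2 : nmf b ^ 2 ≤ X := by
        refine le_trans ?_ hVX
        calc nmf b ^ 2 ≤ (V ^ Fintype.card L) ^ 2 := Nat.pow_le_pow_left (nmf_le_pow hb') 2
          _ = V ^ (2 * Fintype.card L) := by rw [← pow_mul, mul_comm]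
      obtain ⟨hY2, hYle, hYlog⟩ := div_log X (nmf b) (1 / (M : ℝ)) hX16 hP1 hP2 hδ0 hδ1
      refine (hin U hU V hV b hb' hub _ hY2).trans ?_
      have hlY : 0 ≤ Real.log ((X / nmf b : ℕ) : ℝ) ^ (-(1 / (M : ℝ))) :=
        Real.rpow_nonneg (Real.log_nonneg (by exact_mod_cast (by omega : 1 ≤ X / nmf b))) _
      have hP0 : (0 : ℝ) ≤ 1 / nmf b := by positivity
      calc C1 * ((X / nmf b : ℕ) : ℝ) * Real.log ((X / nmf b : ℕ) : ℝ) ^ (-(1 / (M : ℝ))) *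
            (1 + Real.log V)
          = C1 * (1 + Real.log V) * (((X / nmf b : ℕ) : ℝ) *
            Real.log ((X / nmf b : ℕ) : ℝ) ^ (-(1 / (M : ℝ)))) := by ring
        _ ≤ C1 * (1 + Real.log V) * ((X * (1 / nmf b)) *
            (4 * Real.log X ^ (-(1 / (M : ℝ))))) := by
            apply mul_le_mul_of_nonneg_left _ (by positivity)
            exact mul_le_mul hYle hYlog hlY (by positivity)
        _ = 4 * C1 * X * Real.log X ^ (-(1 / (M : ℝ))) * (1 + Real.log V) * (1 / nmf b) := by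
            ring
    calc ‖∑ b ∈ (SmB ι V U).erase (fun _ : L => (∅ : Finset ι)),
          ∑ S ∈ (Sx ι (X / nmf b)).filter (fun S => Disjoint S (uni b)),
            ∑ d ∈ FamU U S, FFw D Λ h (fun l => b l ∪ d l)‖
        ≤ ∑ b ∈ (SmB ι V U).erase (fun _ : L => (∅ : Finset ι)),
          ‖∑ S ∈ (Sx ι (X / nmf b)).filter (fun S => Disjoint S (uni b)),
            ∑ d ∈ FamU U S, FFw D Λ h (fun l => b l ∪ d l)‖ := norm_sum_le _ _
      _ ≤ ∑ b ∈ (SmB ι V U).erase (fun _ : L => (∅ : Finset ι)),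
          4 * C1 * X * Real.log X ^ (-(1 / (M : ℝ))) * (1 + Real.log V) * (1 / nmf b) :=
          sum_le_sum hterm
      _ ≤ ∑ b ∈ SmB ι V U,
          4 * C1 * X * Real.log X ^ (-(1 / (M : ℝ))) * (1 + Real.log V) * (1 / nmf b) :=
          sum_le_sum_of_subset_of_nonneg (erase_subset _ _) fun b _ _ => by positivity
      _ = 4 * C1 * X * Real.log X ^ (-(1 / (M : ℝ))) * (1 + Real.log V) *
          ∑ b ∈ SmB ι V U, (1 : ℝ) / nmf b := by rw [mul_sum]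
      _ ≤ 4 * C1 * X * Real.log X ^ (-(1 / (M : ℝ))) * (1 + Real.log V) *
          (K ^ Fintype.card L * (1 + Real.log V) ^ Fintype.card L) :=
          mul_le_mul_of_nonneg_left (harm_fam hK1 hharm V hV U) (by positivity)
      _ = 4 * C1 * K ^ Fintype.card L * X * Real.log X ^ (-(1 / (M : ℝ))) *
          (1 + Real.log V) ^ (Fintype.card L + 1) := by
          rw [pow_succ]
          ring
  exact (norm_add_le _ _).trans (add_le_add hmain hrest)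

end

end Pool.Agent.Lib.MP_1a91b9_ntS3.DG
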